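import Pool.Agent.Y683.AA.NFMain

/-!
# Triple products of a newform of even weight with two Eisenstein series of weight one

`f ∈ S_{2m}(Γ₀(N))` is a newform with trivial character, `g = E₁(ψ₁, ψ₂)` and `h = E₁(ψ₃, ψ₄)` are
Eisenstein series of weight one with `ψ₁ ψ₂ ψ₃ ψ₄ = 1`, attached to characters modulo `q` (`ψ₁ ψ₂` and
`ψ₃ ψ₄` are odd).  Then `V_g ⊗ V_h` is the sum of the four characters `ψᵢ ψⱼ`, `i = 1, 2`, `j = 3, 4`,
and `L(f ⊗ g ⊗ h, s)` is the product of the four `L(f, ψᵢ ψⱼ, s)`.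

For almost all moduli `q`, and for the powers of primes, the order of vanishing of
`L(f ⊗ g ⊗ h, s)` at the centre `s = m` is zero for `100%` of the pairs `(g, h)`, in fact for every
`g` and `100%` of the `h`.

The twisted `L`-functions, the invariance of the vanishing of their central values under Galois
automorphisms and the bound for Carmichael's function come from the library behind
`MP_ec4e4b_nt.AlmostAllTwists`.
-/

set_option autoImplicit false

open Complex UpperHalfPlane MatrixGroups CongruenceSubgroup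

namespace Pool.Agent.Results.MP_60ff09_nt.EisensteinPairs

/-- The `n`-th Fourier coefficient of `f`. -/
noncomputable def coef {N : ℕ} {k : ℤ} (f : CuspForm (Gamma1 N : Subgroup (GL (Fin 2) ℝ)) k)
    (n : ℕ) : ℂ :=
  (qExpansion 1 f).coeff n

/-- `f` is a newform of weight `2m`, level `N` and trivial character: `f(γτ) = (cτ + d)^(2m) f(τ)` for
all `γ = (a b; c d) ∈ Γ₀(N)`, the Fourier coefficients `c(n)` of `f` satisfy `c(1) = 1`,
`c(ab) = c(a) c(b)` for coprime `a`, `b`, `c(p^(j+2)) = c(p) c(p^(j+1)) - 1_N(p) p^(2m-1) c(p^j)`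
(`1_N(p) = 1` if `p ∤ N` and `0` if `p ∣ N`), for the primes `p ∤ N` also `c(p)` is real and
`|c(p)| ≤ 2 p^((2m-1)/2)` (Deligne), for the primes `p ∣ N` `|c(p)| ≤ p^((2m-1)/2)`; and the Fricke
involution takes `f` to a multiple of `f^c`, `f^c(τ) = conj f(-conj τ)`:
`f(-1/(Nτ)) = w (-N)^m τ^(2m) f^c(τ)` with `|w| = 1`. -/
structure IsNewform (m N : ℕ) (f : CuspForm (Gamma1 N : Subgroup (GL (Fin 2) ℝ)) (2 * m : ℤ)) :
    Prop where
  neb : ∀ γ : SL(2, ℤ), γ ∈ Gamma0 N → ∀ τ : ℍ, f (γ • τ) =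
    (((γ 1 0 : ℤ) : ℂ) * (τ : ℂ) + ((γ 1 1 : ℤ) : ℂ)) ^ (2 * m) * f τ
  one : coef f 1 = 1
  mul : ∀ a b : ℕ, Nat.Coprime a b → coef f (a * b) = coef f a * coef f b
  pow : ∀ p j : ℕ, p.Prime → coef f (p ^ (j + 2)) = coef f p * coef f (p ^ (j + 1)) -
    (if p ∣ N then 0 else 1) * (p : ℂ) ^ (2 * m - 1) * coef f (p ^ j)
  real : ∀ p : ℕ, p.Prime → ¬ p ∣ N → (starRingEnd ℂ) (coef f p) = coef f p
  good : ∀ p : ℕ, p.Prime → ¬ p ∣ N → ‖coef f p‖ ≤ 2 * (p : ℝ) ^ ((2 * m - 1 : ℝ) / 2)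
  bad : ∀ p : ℕ, p.Prime → p ∣ N → ‖coef f p‖ ≤ (p : ℝ) ^ ((2 * m - 1 : ℝ) / 2)
  fricke : ∃ w : ℂ, ‖w‖ = 1 ∧ ∀ τ τ' τc : ℍ, (τ' : ℂ) * ((N : ℂ) * (τ : ℂ)) = -1 →
    (τc : ℂ) = -(starRingEnd ℂ) (τ : ℂ) →
    f τ' = (-1 : ℂ) ^ m * w * (N : ℂ) ^ m * (τ : ℂ) ^ (2 * m) * (starRingEnd ℂ) (f τc)

/-- The Eisenstein series `E₁(ψ₁, ψ₂)` of weight one, given by the Dirichlet characters `ψ₁`, `ψ₂`
modulo `q` with `ψ₁ ψ₂` odd: its `L`-function is `L(ψ₁', s) L(ψ₂', s)`, its Galois representation is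
`ψ₁ ⊕ ψ₂` and its character is `ψ₁ ψ₂`. -/
structure Eisenstein (q : ℕ) where
  fst : DirichletCharacter ℂ q
  snd : DirichletCharacter ℂ q
  odd : fst (-1) * snd (-1) = -1

/-- The `h = E₁(ψ₃, ψ₄)` with `ψ₁ ψ₂ ψ₃ ψ₄ = 1`, where `g = E₁(ψ₁, ψ₂)` (the pairs `(ψ₃, ψ₄)` and
`(ψ₄, ψ₃)`, which give the same form, both occur). -/
def partners {q : ℕ} (g : Eisenstein q) : Set (Eisenstein q) :=
  {h | g.fst * g.snd * (h.fst * h.snd) = 1}

/-- The Euler factor at the prime `p` of `L(f, χ', s)`, `χ'` the primitive character that induces `χ`: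
`(1 - χ'(p) c(p) p^(-s) + χ'(p)² 1_N(p) p^(2m-1-2s))⁻¹`. -/
noncomputable def twistFactor {m N : ℕ} (f : CuspForm (Gamma1 N : Subgroup (GL (Fin 2) ℝ)) (2 * m : ℤ))
    {q : ℕ} (χ : DirichletCharacter ℂ q) (s : ℂ) (p : ℕ) : ℂ :=
  (1 - χ.primitiveCharacter (p : ZMod χ.conductor) * coef f p * (p : ℂ) ^ (-s) +
    χ.primitiveCharacter (p : ZMod χ.conductor) ^ 2 * (if p ∣ N then 0 else 1) *
      (p : ℂ) ^ (2 * (m : ℂ) - 1 - 2 * s))⁻¹

/-- The Euler factor of `L(f ⊗ g ⊗ h, s)` at the prime `p`: the product of the Euler factors of the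
four `L(f, ψᵢ ψⱼ, s)`. -/
noncomputable def factor {m N : ℕ} (f : CuspForm (Gamma1 N : Subgroup (GL (Fin 2) ℝ)) (2 * m : ℤ))
    {q : ℕ} (g h : Eisenstein q) (s : ℂ) (p : ℕ) : ℂ :=
  twistFactor f (g.fst * h.fst) s p * twistFactor f (g.fst * h.snd) s p *
    (twistFactor f (g.snd * h.fst) s p * twistFactor f (g.snd * h.snd) s p)

/-- `exp(-c (log X)^(1/3))`. -/
noncomputable def decay (c : ℝ) (X : ℕ) : ℝ := Real.exp (-c * (Real.log X) ^ ((1 : ℝ) / 3))

/-- For the form `g` the orders of vanishing at `s = m` of the `L(f ⊗ g ⊗ h, s)`, summed over all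
partners `h` of `g`, are at most `B`, and at most `B` of these functions vanish at `s = m`. -/
def Few (L : (q : ℕ) → Eisenstein q → Eisenstein q → ℂ → ℂ) (m : ℕ) {q : ℕ} (g : Eisenstein q)
    (B : ℝ) : Prop :=
  ((∑ᶠ h ∈ partners g, analyticOrderNatAt (L q g h) m : ℕ) : ℝ) ≤ B ∧
    ({h ∈ partners g | L q g h m = 0}.ncard : ℝ) ≤ B

/-- the moduli `q ≤ X` prime to `N` such that not every `g` has the property `Few` with the bound
`C q ^ (3/4 + ε)` -/
def Exceptional (L : (q : ℕ) → Eisenstein q → Eisenstein q → ℂ → ℂ) (m N : ℕ) (C ε : ℝ) (X : ℕ) :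
    Set ℕ :=
  {q | 1 ≤ q ∧ q ≤ X ∧ Nat.Coprime q N ∧
    ¬ ∀ g : Eisenstein q, Few L m g (C * (q : ℝ) ^ (3 / 4 + ε))}

/-- the partner of `g` with the first character `ψ` -/
noncomputable def mk {q : ℕ} (g : Eisenstein q) (ψ : DirichletCharacter ℂ q) : Eisenstein q where
  fst := ψ
  snd := (g.fst * g.snd * ψ)⁻¹
  odd := by
    have h1 : (g.fst * g.snd * ψ) (-1) * (g.fst * g.snd * ψ)⁻¹ (-1) = 1 := by
      rw [← MulChar.mul_apply, mul_inv_cancel]
      exact MulChar.one_apply isUnit_one.neg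
    rw [MulChar.mul_apply, MulChar.mul_apply, g.odd] at h1
    linear_combination -h1

theorem mk_mem {q : ℕ} (g : Eisenstein q) (ψ : DirichletCharacter ℂ q) : mk g ψ ∈ partners g := by
  change g.fst * g.snd * (ψ * (g.fst * g.snd * ψ)⁻¹) = 1
  rw [← mul_assoc, mul_inv_cancel]

theorem eq_mk {q : ℕ} {g h : Eisenstein q} (hh : h ∈ partners g) : h = mk g h.fst := by
  have h1 : h.snd = (g.fst * g.snd * h.fst)⁻¹ := by
    have h2 : g.fst * g.snd * (h.fst * h.snd) = 1 := hh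
    rw [← mul_assoc] at h2
    exact eq_inv_of_mul_eq_one_right h2
  cases h
  simp only at h1
  subst h1
  rfl

theorem mk_injective {q : ℕ} (g : Eisenstein q) : Function.Injective (mk g) := by
  intro a b hab
  exact congrArg Eisenstein.fst hab

theorem partners_eq {q : ℕ} (g : Eisenstein q) : partners g = Set.range (mk g) := by
  ext h
  constructor
  · intro hh
    exact ⟨h.fst, (eq_mk hh).symm⟩
  · rintro ⟨ψ, rfl⟩
    exact mk_mem g ψ

theorem sum_partners {q : ℕ} (hq : 1 ≤ q) (g : Eisenstein q) (G : DirichletCharacter ℂ q → ℕ) :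
    ∑ᶠ h ∈ partners g, (G (g.fst * h.fst) + G (g.fst * h.snd) +
      (G (g.snd * h.fst) + G (g.snd * h.snd))) = 4 * ∑ᶠ χ, G χ := by
  classical
  have : NeZero q := ⟨by omega⟩
  rw [partners_eq, finsum_mem_range (mk_injective g)]
  rw [finsum_eq_sum_of_fintype, finsum_eq_sum_of_fintype]
  have e1 : ∑ ψ, G (g.fst * (mk g ψ).fst) = ∑ χ, G χ :=
    Equiv.sum_comp (Equiv.mulLeft g.fst) G
  have e2 : ∑ ψ, G (g.fst * (mk g ψ).snd) = ∑ χ, G χ :=
    Equiv.sum_comp ((Equiv.mulLeft (g.fst * g.snd)).trans ((Equiv.inv _).trans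
      (Equiv.mulLeft g.fst))) G
  have e3 : ∑ ψ, G (g.snd * (mk g ψ).fst) = ∑ χ, G χ :=
    Equiv.sum_comp (Equiv.mulLeft g.snd) G
  have e4 : ∑ ψ, G (g.snd * (mk g ψ).snd) = ∑ χ, G χ :=
    Equiv.sum_comp ((Equiv.mulLeft (g.fst * g.snd)).trans ((Equiv.inv _).trans
      (Equiv.mulLeft g.snd))) G
  rw [Finset.sum_add_distrib, Finset.sum_add_distrib, Finset.sum_add_distrib, e1, e2, e3, e4]
  ring

/-- **Main theorem.** Let `f ∈ S_{2m}(Γ₀(N))` be a newform of weight `2m`.  For all Eisenstein series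
`g`, `h` of weight one with characters modulo `q` prime to `N` and `χ_g χ_h = 1` there is an entire
function `L q g h`, not identically zero near `m`, which for `Re s > m + 1/2` is the Euler product of
`L(f ⊗ g ⊗ h, s)`; each `g` has exactly `φ(q)` partners `h`.  For every `ε > 0` there are `C`, `c > 0`
such that

(A) for all `q ≤ X` prime to `N` but at most `C X exp(-c (log X)^(1/3))` and for EVERY `g` the orders
of vanishing of the `L(f ⊗ g ⊗ h, s)` at `s = m`, summed over all partners `h` of `g`, are at most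
`C q ^ (3/4 + ε)`, and at most `C q ^ (3/4 + ε)` of the `L(f ⊗ g ⊗ h, m)` are zero;

(B) for all powers `q = p^k` of primes `p ∤ N` the same holds, for every `g`, and also with the bound
`C p ^ (3 + ε)` in place of `C q ^ (3/4 + ε)`. -/
theorem result (m N : ℕ) [NeZero N] (hm : 1 ≤ m)
    (f : CuspForm (Gamma1 N : Subgroup (GL (Fin 2) ℝ)) (2 * m : ℤ)) (hf : IsNewform m N f) :
    ∃ L : (q : ℕ) → Eisenstein q → Eisenstein q → ℂ → ℂ,
      (∀ (q : ℕ) (g h : Eisenstein q), 1 ≤ q → Nat.Coprime q N → h ∈ partners g →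
        Differentiable ℂ (L q g h) ∧ analyticOrderAt (L q g h) m ≠ ⊤ ∧
        ∀ s : ℂ, (m : ℝ) + 1 / 2 < s.re →
          HasProd (fun p : Nat.Primes => factor f g h s p) (L q g h s)) ∧
      (∀ (q : ℕ) (g : Eisenstein q), 1 ≤ q →
        (partners g).Finite ∧ (partners g).ncard = Nat.totient q) ∧
      ∀ ε : ℝ, 0 < ε → ∃ C c : ℝ, 0 < C ∧ 0 < c ∧
        (∀ X : ℕ, 1 ≤ X → ((Exceptional L m N C ε X).ncard : ℝ) ≤ C * X * decay c X) ∧
        ∀ p : ℕ, p.Prime → ¬ p ∣ N → ∀ (k : ℕ) (g : Eisenstein (p ^ k)),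
          Few L m g (C * ((p : ℝ) ^ k) ^ (3 / 4 + ε)) ∧ Few L m g (C * (p : ℝ) ^ (3 + ε)) := by
  classical
  have hNp : ∀ p : ℕ, p.Prime → (1 : DirichletCharacter ℂ N) (p : ZMod N) =
      if p ∣ N then 0 else 1 := by
    intro p hp
    by_cases h : p ∣ N
    · rw [if_pos h]
      refine MulChar.map_nonunit _ fun hu => ?_
      rw [ZMod.isUnit_iff_coprime] at hu
      exact hp.one_lt.ne' ((Nat.Coprime.eq_one_of_dvd hu h))
    · rw [if_neg h]
      refine MulChar.one_apply ?_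
      rw [ZMod.isUnit_iff_coprime]
      exact (Nat.Prime.coprime_iff_not_dvd hp).2 h
  have hneb : ∀ γ : SL(2, ℤ), γ ∈ Gamma0 N → (1 : DirichletCharacter ℂ N) ((γ 1 1 : ℤ) : ZMod N) = 1 := by
    intro γ hγ
    refine MulChar.one_apply ?_
    have h1 := Matrix.det_fin_two γ.1
    rw [γ.2] at h1
    have h2 : ((γ 1 0 : ℤ) : ZMod N) = 0 := Gamma0_mem.1 hγ
    have h3 : ((γ 0 0 : ℤ) : ZMod N) * ((γ 1 1 : ℤ) : ZMod N) = 1 := by
      have h4 := congrArg (fun z : ℤ => (z : ZMod N)) h1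
      simp only [Int.cast_one, Int.cast_sub, Int.cast_mul] at h4
      have h5 : ((γ.1 1 0 : ℤ) : ZMod N) = 0 := h2
      rw [h5, mul_zero, sub_zero] at h4
      exact h4.symm
    exact IsUnit.of_mul_eq_one_right _ h3
  obtain ⟨w, hw, hfr⟩ := hf.fricke
  obtain ⟨K, D, h1, -, hG, -⟩ := Pool.Agent.Y683.AA.data hm
    (f := f) (η := (1 : DirichletCharacter ℂ N)) (w := w)
    ⟨hf.one, hf.mul, fun p j hp => by rw [hNp p hp]; exact hf.pow p j hp,
      fun p hp h => by
        rw [hNp p hp, if_neg h, map_one, one_mul]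
        exact hf.real p hp h,
      hf.good, hf.bad, fun γ hγ τ => by rw [hneb γ hγ, one_mul]; exact hf.neb γ hγ τ, hw, hfr⟩
  set P : (q : ℕ) → DirichletCharacter ℂ q → ℂ → ℂ :=
    fun q χ => D χ.conductor χ.primitiveCharacter with hP
  have hcond : ∀ (q : ℕ) (χ : DirichletCharacter ℂ q), 1 ≤ q → Nat.Coprime q N →
      Differentiable ℂ (P q χ) ∧ analyticOrderAt (P q χ) m ≠ ⊤ ∧
        ∀ s : ℂ, (m : ℝ) + 1 / 2 < s.re →
          HasProd (fun p : Nat.Primes => twistFactor f χ s p) (P q χ s) := by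
    intro q χ hq hqN
    have : NeZero q := ⟨by omega⟩
    obtain ⟨a, b, c⟩ := h1 _ _ (Nat.one_le_iff_ne_zero.2 χ.conductor_ne_zero)
      (Nat.Coprime.coprime_dvd_left χ.conductor_dvd_level hqN) χ.primitiveCharacter_isPrimitive
    refine ⟨a, b, fun s hs => ?_⟩
    have e : (fun p : Nat.Primes => twistFactor f χ s p) = fun p : Nat.Primes =>
        (1 - χ.primitiveCharacter ((p : ℕ) : ZMod χ.conductor) * Pool.Agent.W192.CY.cf f p *
          ((p : ℕ) : ℂ) ^ (-s) + χ.primitiveCharacter ((p : ℕ) : ZMod χ.conductor) ^ 2 *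
            (1 : DirichletCharacter ℂ N) ((p : ℕ) : ZMod N) *
              ((p : ℕ) : ℂ) ^ (2 * (m : ℂ) - 1 - 2 * s))⁻¹ := by
      funext p
      rw [hNp p p.2]
      rfl
    rw [e]
    exact c s hs
  set T : (q : ℕ) → Eisenstein q → Eisenstein q → ℂ → ℂ := fun q g h s =>
    P q (g.fst * h.fst) s * P q (g.fst * h.snd) s *
      (P q (g.snd * h.fst) s * P q (g.snd * h.snd) s) with hT
  set G : (q : ℕ) → DirichletCharacter ℂ q → ℕ := fun q χ => analyticOrderNatAt (P q χ) m with hGd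
  have hord : ∀ (q : ℕ) (g h : Eisenstein q), 1 ≤ q → Nat.Coprime q N →
      analyticOrderAt (T q g h) m = ((G q (g.fst * h.fst) + G q (g.fst * h.snd) +
        (G q (g.snd * h.fst) + G q (g.snd * h.snd)) : ℕ) : ℕ∞) := by
    intro q g h hq hqN
    have ha : ∀ χ : DirichletCharacter ℂ q, AnalyticAt ℂ (P q χ) m := fun χ =>
      (hcond q χ hq hqN).1.analyticAt _
    have ho : ∀ χ : DirichletCharacter ℂ q, ((G q χ : ℕ) : ℕ∞) = analyticOrderAt (P q χ) m :=
      fun χ => Nat.cast_analyticOrderNatAt (hcond q χ hq hqN).2.1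
    have e : T q g h = (P q (g.fst * h.fst) * P q (g.fst * h.snd)) *
        (P q (g.snd * h.fst) * P q (g.snd * h.snd)) := rfl
    rw [e, analyticOrderAt_mul ((ha _).mul (ha _)) ((ha _).mul (ha _)),
      analyticOrderAt_mul (ha _) (ha _), analyticOrderAt_mul (ha _) (ha _)]
    push_cast
    rw [ho, ho, ho, ho]
  have hdiff : ∀ (q : ℕ) (g h : Eisenstein q), 1 ≤ q → Nat.Coprime q N →
      Differentiable ℂ (T q g h) := by
    intro q g h hq hqN
    have hd : ∀ χ : DirichletCharacter ℂ q, Differentiable ℂ (P q χ) := fun χ =>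
      (hcond q χ hq hqN).1
    exact ((hd _).mul (hd _)).mul ((hd _).mul (hd _))
  have htop : ∀ (q : ℕ) (g h : Eisenstein q), 1 ≤ q → Nat.Coprime q N →
      analyticOrderAt (T q g h) m ≠ ⊤ := by
    intro q g h hq hqN
    rw [hord q g h hq hqN]
    exact ENat.natCast_ne_top _
  have hcard : ∀ (q : ℕ) (g : Eisenstein q), 1 ≤ q →
      (partners g).Finite ∧ (partners g).ncard = Nat.totient q := by
    intro q g hq
    have : NeZero q := ⟨by omega⟩
    rw [partners_eq]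
    refine ⟨Set.finite_range _, ?_⟩
    rw [← Set.image_univ, Set.ncard_image_of_injective _ (mk_injective g), Set.ncard_univ,
      DirichletCharacter.card_eq_totient_of_hasEnoughRootsOfUnity ℂ q]
  have hsum : ∀ (q : ℕ) (g : Eisenstein q), 1 ≤ q → Nat.Coprime q N →
      ∑ᶠ h ∈ partners g, analyticOrderNatAt (T q g h) m =
        4 * Pool.Agent.TH940.tot (fun q χ => analyticOrderNatAt (D q χ) m) q := by
    intro q g hq hqN
    have e : Pool.Agent.TH940.tot (fun q χ => analyticOrderNatAt (D q χ) m) q =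
        ∑ᶠ χ : DirichletCharacter ℂ q, G q χ := rfl
    rw [e, ← sum_partners hq g (G q)]
    refine finsum_mem_congr rfl fun h _ => ?_
    unfold analyticOrderNatAt
    rw [hord q g h hq hqN]
    rfl
  have hfew : ∀ (q : ℕ) (g : Eisenstein q) (B : ℝ), 1 ≤ q → Nat.Coprime q N →
      4 * (Pool.Agent.TH940.tot (fun q χ => analyticOrderNatAt (D q χ) m) q : ℝ) ≤ B →
      Few T m g B := by
    intro q g B hq hqN hB
    have h2 : ((∑ᶠ h ∈ partners g, analyticOrderNatAt (T q g h) m : ℕ) : ℝ) ≤ B := by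
      rw [hsum q g hq hqN]
      push_cast
      exact hB
    refine ⟨h2, le_trans ?_ h2⟩
    refine (Nat.cast_le (α := ℝ)).2 (Pool.Agent.Y683.AA.ncard_le_finsum (hcard q g hq).1 _ _
      fun h hh h0 hz => ?_)
    have h6 : analyticOrderAt (T q g h) m = 0 := by
      rw [← Nat.cast_analyticOrderNatAt (htop q g h hq hqN), hz]
      rfl
    exact (((hdiff q g h hq hqN).analyticAt _).analyticOrderAt_eq_zero.1 h6) h0
  refine ⟨T, fun q g h hq hqN _ => ⟨hdiff q g h hq hqN, htop q g h hq hqN, fun s hs => ?_⟩,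
    hcard, fun ε hε => ?_⟩
  · have hp : ∀ χ : DirichletCharacter ℂ q,
        HasProd (fun p : Nat.Primes => twistFactor f χ s p) (P q χ s) := fun χ =>
      (hcond q χ hq hqN).2.2 s hs
    exact ((hp _).mul (hp _)).mul ((hp _).mul (hp _))
  · obtain ⟨C1, c, hC1, hc, h3⟩ := Pool.Agent.Y683.AA.moduli hG hε
    obtain ⟨C2, hC2, h4⟩ := Pool.Agent.Y683.AA.prime_powers hG hε
    refine ⟨max (4 * C1) (4 * C2), c, lt_max_of_lt_left (by positivity), hc, fun X hX => ?_,
      fun p hp hpN k g => ?_⟩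
    · have hX0 : (0 : ℝ) ≤ X := Nat.cast_nonneg _
      have h6 : Exceptional T m N (max (4 * C1) (4 * C2)) ε X ⊆
          (((Finset.Icc 1 X).filter (fun q : ℕ => Nat.Coprime q N ∧
            C1 * (q : ℝ) ^ (3 / 4 + ε) < Pool.Agent.TH940.tot
              (fun q χ => analyticOrderNatAt (D q χ) m) q) : Finset ℕ) : Set ℕ) := by
        rintro q ⟨k1, k2, k3, k4⟩
        rw [Finset.mem_coe, Finset.mem_filter, Finset.mem_Icc]
        refine ⟨⟨k1, k2⟩, k3, ?_⟩
        by_contra hcon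
        push Not at hcon
        refine k4 fun g => hfew q g _ k1 k3 ?_
        calc 4 * (Pool.Agent.TH940.tot (fun q χ => analyticOrderNatAt (D q χ) m) q : ℝ) ≤
              4 * (C1 * (q : ℝ) ^ (3 / 4 + ε)) := by linarith
          _ = 4 * C1 * (q : ℝ) ^ (3 / 4 + ε) := by ring
          _ ≤ _ := mul_le_mul_of_nonneg_right (le_max_left _ _) (by positivity)
      have h7 := (Nat.cast_le (α := ℝ)).2 (Set.ncard_le_ncard h6 (Finset.finite_toSet _))
      rw [Set.ncard_coe_finset] at h7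
      refine h7.trans ((h3 X hX).trans ?_)
      refine mul_le_mul_of_nonneg_right ?_ (Real.exp_pos _).le
      refine mul_le_mul_of_nonneg_right (le_trans ?_ (le_max_left _ _)) hX0
      linarith
    · have hq : 1 ≤ p ^ k := Nat.one_le_iff_ne_zero.2 (pow_pos hp.pos k).ne'
      have hco : Nat.Coprime (p ^ k) N :=
        Nat.Coprime.pow_left k ((Nat.Prime.coprime_iff_not_dvd hp).2 hpN)
      obtain ⟨k1, k2⟩ := h4 p hp hpN k
      refine ⟨hfew _ g _ hq hco ?_, hfew _ g _ hq hco ?_⟩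
      · calc 4 * (Pool.Agent.TH940.tot (fun q χ => analyticOrderNatAt (D q χ) m) (p ^ k) : ℝ) ≤
              4 * (C2 * ((p : ℝ) ^ k) ^ (3 / 4 + ε)) := by linarith
          _ = 4 * C2 * ((p : ℝ) ^ k) ^ (3 / 4 + ε) := by ring
          _ ≤ _ := mul_le_mul_of_nonneg_right (le_max_right _ _) (by positivity)
      · calc 4 * (Pool.Agent.TH940.tot (fun q χ => analyticOrderNatAt (D q χ) m) (p ^ k) : ℝ) ≤
              4 * (C2 * (p : ℝ) ^ (3 + ε)) := by linarith
          _ = 4 * C2 * (p : ℝ) ^ (3 + ε) := by ring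
          _ ≤ _ := mul_le_mul_of_nonneg_right (le_max_right _ _) (by positivity)

end Pool.Agent.Results.MP_60ff09_nt.EisensteinPairs
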